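import Mathlib

/-!
# Flat Chebyshev metrics with merely continuous angle need not have additive angle

We construct an open set `D` (the open unit square), a `C^1` map `f : D → ℂ` with
`|f_u| = |f_v| = 1` and `om = arcsin (f_u · f_v)` with `|sin om| < 1`, such that `om` is not of the
form `g(u) + h(v)` near some point of `D`.

The map `f` is a limit of short maps `F n` with `1 - |∂F n|^2 ≤ (25/64)^n / 10^4`, obtained by
adding corrugations `(1/N) (i k w sin (N u) - (k^2/8) w sin (2 N u))`, `w = ∂_u F`, in the two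
coordinate directions (Nash-Kuiper in codimension zero for the two conditions `|f_u| = |f_v| = 1`);
it is uniformly close to the map `f0`, whose mixed second difference is not zero. If `om` is locally
additive, then `f = Φ ∘ F` locally with the chart `F` of the problem file and a holomorphic `Φ` with
`|Φ'| = 1`; so `Φ'` is locally constant, `f_u` does not depend on `v`, and the mixed second
differences of `f` vanish.
-/

open Complex Set Filter Topology Metric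
open scoped ContDiff
set_option autoImplicit false
namespace Pool.Agent.Results.MP_65e1c6_gt.NonAdditiveAngle

abbrev E : Type := ℝ × ℝ

def Sm (K : Set E) (f : E → ℂ) : Prop := ∃ U, IsOpen U ∧ K ⊆ U ∧ ContDiffOn ℝ ∞ f U

lemma dirderiv {g : E → ℂ} {z v : E} (hg : DifferentiableAt ℝ g z) :
    HasDerivAt (fun t : ℝ => g (z + t • v)) (fderiv ℝ g z v) 0 := by
  have h : HasDerivAt (fun t : ℝ => z + t • v) v 0 := by
    simpa using ((hasDerivAt_id (0 : ℝ)).smul_const v).const_add z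
  have hg' : HasFDerivAt g (fderiv ℝ g z) (z + (0 : ℝ) • v) := by simpa using hg.hasFDerivAt
  exact hg'.comp_hasDerivAt 0 h

/-- adding a fast oscillation -/
noncomputable def gN (f a b : E → ℂ) (l : E →L[ℝ] ℝ) (N : ℝ) (z : E) : ℂ :=
  f z + ((1 / N : ℝ) : ℂ) * (a z * (Real.sin (N * l z) : ℂ) - b z * (Real.sin (2 * (N * l z)) : ℂ))

lemma gN_smooth {U : Set E} {f a b : E → ℂ} (hf : ContDiffOn ℝ ∞ f U) (ha : ContDiffOn ℝ ∞ a U)
    (hb : ContDiffOn ℝ ∞ b U) (l : E →L[ℝ] ℝ) (N : ℝ) : ContDiffOn ℝ ∞ (gN f a b l N) U := by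
  have h1 : ContDiffOn ℝ ∞ (fun z : E => (Real.sin (N * l z) : ℂ)) U :=
    (Complex.ofRealCLM.contDiff.comp (Real.contDiff_sin.comp (contDiff_const.mul l.contDiff))).contDiffOn
  have h2 : ContDiffOn ℝ ∞ (fun z : E => (Real.sin (2 * (N * l z)) : ℂ)) U :=
    (Complex.ofRealCLM.contDiff.comp (Real.contDiff_sin.comp
      (contDiff_const.mul (contDiff_const.mul l.contDiff)))).contDiffOn
  exact hf.add (contDiffOn_const.mul ((ha.mul h1).sub (hb.mul h2)))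

lemma gN_deriv {U : Set E} (hU : IsOpen U) {f a b : E → ℂ} (hf : ContDiffOn ℝ ∞ f U)
    (ha : ContDiffOn ℝ ∞ a U) (hb : ContDiffOn ℝ ∞ b U) (l : E →L[ℝ] ℝ) {N : ℝ} (hN : N ≠ 0)
    {z : E} (hz : z ∈ U) (v : E) :
    fderiv ℝ (gN f a b l N) z v = fderiv ℝ f z v +
      (a z * (Real.cos (N * l z) : ℂ) - 2 * b z * (Real.cos (2 * (N * l z)) : ℂ)) * (l v : ℂ) +
      ((1 / N : ℝ) : ℂ) * (fderiv ℝ a z v * (Real.sin (N * l z) : ℂ) -
        fderiv ℝ b z v * (Real.sin (2 * (N * l z)) : ℂ)) := by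
  have hn : U ∈ 𝓝 z := hU.mem_nhds hz
  have df : ∀ {φ : E → ℂ}, ContDiffOn ℝ ∞ φ U → DifferentiableAt ℝ φ z := fun h =>
    (h.contDiffAt hn).differentiableAt (by simp)
  have hg := dirderiv (v := v) (df (gN_smooth hf ha hb l N))
  have h0 : z + (0 : ℝ) • v = z := by simp
  have hl : HasDerivAt (fun t : ℝ => l (z + t • v)) (l v) 0 := by
    have h : HasDerivAt (fun t : ℝ => z + t • v) v 0 := by
      simpa using ((hasDerivAt_id (0 : ℝ)).smul_const v).const_add z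
    exact l.hasFDerivAt.comp_hasDerivAt 0 h
  have hs1 : HasDerivAt (fun t : ℝ => ((Real.sin (N * l (z + t • v)) : ℝ) : ℂ))
      ((Real.cos (N * l z) * (N * l v) : ℝ) : ℂ) 0 := by
    have := ((hl.const_mul N).sin).ofReal_comp
    rw [h0] at this
    exact this
  have hs2 : HasDerivAt (fun t : ℝ => ((Real.sin (2 * (N * l (z + t • v))) : ℝ) : ℂ))
      ((Real.cos (2 * (N * l z)) * (2 * (N * l v)) : ℝ) : ℂ) 0 := by
    have := (((hl.const_mul N).const_mul 2).sin).ofReal_comp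
    rw [h0] at this
    exact this
  have h1 := (dirderiv (v := v) (df hf)).add ((((dirderiv (v := v) (df ha)).mul hs1).sub
    ((dirderiv (v := v) (df hb)).mul hs2)).const_mul ((1 / N : ℝ) : ℂ))
  have h2 := hg.unique h1
  rw [h2, h0]
  have hN' : (N : ℂ) ≠ 0 := by exact_mod_cast hN
  push_cast
  field_simp
  ring

lemma osc {K : Set E} (hK : IsCompact K) {U : Set E} (hU : IsOpen U) (hKU : K ⊆ U)
    {f a b : E → ℂ} (hf : ContDiffOn ℝ ∞ f U) (ha : ContDiffOn ℝ ∞ a U) (hb : ContDiffOn ℝ ∞ b U)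
    (l : E →L[ℝ] ℝ) {η : ℝ} (hη : 0 < η) {e e' : E} (he : l e = 1) (he' : l e' = 0) :
    ∃ N : ℝ, ∀ z ∈ K, ‖gN f a b l N z - f z‖ ≤ η ∧
      ‖fderiv ℝ (gN f a b l N) z e' - fderiv ℝ f z e'‖ ≤ η ∧
      ‖fderiv ℝ (gN f a b l N) z e - (fderiv ℝ f z e + (a z * (Real.cos (N * l z) : ℂ) -
        2 * b z * (Real.cos (2 * (N * l z)) : ℂ)))‖ ≤ η := by
  have hbd : ∀ φ : E → ℂ, ContDiffOn ℝ ∞ φ U → ∀ v : E, ∃ C : ℝ, ∀ z ∈ K, ‖fderiv ℝ φ z v‖ ≤ C := by
    intro φ hφ v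
    apply hK.exists_bound_of_continuousOn
    have h1 : ContinuousOn (fun z => fderiv ℝ φ z) U := hφ.continuousOn_fderiv_of_isOpen hU (by simp)
    exact (h1.clm_apply continuousOn_const).mono hKU
  obtain ⟨C1, h1⟩ := hK.exists_bound_of_continuousOn (ha.continuousOn.mono hKU)
  obtain ⟨C2, h2⟩ := hK.exists_bound_of_continuousOn (hb.continuousOn.mono hKU)
  obtain ⟨C3, h3⟩ := hbd a ha e
  obtain ⟨C4, h4⟩ := hbd a ha e'
  obtain ⟨C5, h5⟩ := hbd b hb e
  obtain ⟨C6, h6⟩ := hbd b hb e'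
  set C : ℝ := |C1| + |C2| + |C3| + |C4| + |C5| + |C6| + 1 with hC
  have a1 := abs_nonneg C1
  have a2 := abs_nonneg C2
  have a3 := abs_nonneg C3
  have a4 := abs_nonneg C4
  have a5 := abs_nonneg C5
  have a6 := abs_nonneg C6
  have b1 := le_abs_self C1
  have b2 := le_abs_self C2
  have b3 := le_abs_self C3
  have b4 := le_abs_self C4
  have b5 := le_abs_self C5
  have b6 := le_abs_self C6
  have hCpos : 0 < C := by positivity
  have hN : 0 < 2 * C / η := by positivity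
  have key : ∀ (x y : ℂ) (s t : ℝ), ‖x‖ ≤ C → ‖y‖ ≤ C → |s| ≤ 1 → |t| ≤ 1 →
      ‖((1 / (2 * C / η) : ℝ) : ℂ) * (x * (s : ℂ) - y * (t : ℂ))‖ ≤ η := by
    intro x y s t hx hy hs ht
    rw [norm_mul, Complex.norm_real, Real.norm_eq_abs, abs_of_pos (by positivity)]
    have h7 : ‖x * (s : ℂ) - y * (t : ℂ)‖ ≤ 2 * C := by
      refine (norm_sub_le _ _).trans ?_
      rw [norm_mul, norm_mul, Complex.norm_real, Complex.norm_real, Real.norm_eq_abs,
        Real.norm_eq_abs]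
      have := mul_le_mul hx hs (abs_nonneg _) hCpos.le
      have := mul_le_mul hy ht (abs_nonneg _) hCpos.le
      linarith
    calc 1 / (2 * C / η) * ‖x * (s : ℂ) - y * (t : ℂ)‖ ≤ 1 / (2 * C / η) * (2 * C) := by gcongr
      _ = η := by field_simp
  refine ⟨2 * C / η, fun z hz => ⟨?_, ?_, ?_⟩⟩
  · have : gN f a b l (2 * C / η) z - f z = ((1 / (2 * C / η) : ℝ) : ℂ) *
        (a z * (Real.sin (2 * C / η * l z) : ℂ) - b z * (Real.sin (2 * (2 * C / η * l z)) : ℂ)) := by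
      unfold gN; ring
    rw [this]
    exact key _ _ _ _ ((h1 z hz).trans (by linarith)) ((h2 z hz).trans (by linarith))
      (Real.abs_sin_le_one _) (Real.abs_sin_le_one _)
  · rw [gN_deriv hU hf ha hb l hN.ne' (hKU hz) e', he']
    have : ∀ A B D : ℂ, A + B * ((0 : ℝ) : ℂ) + D - A = D := by intro A B D; push_cast; ring
    rw [this]
    exact key _ _ _ _ ((h4 z hz).trans (by linarith)) ((h6 z hz).trans (by linarith))
      (Real.abs_sin_le_one _) (Real.abs_sin_le_one _)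
  · rw [gN_deriv hU hf ha hb l hN.ne' (hKU hz) e, he]
    have : ∀ A B D : ℂ, A + B * ((1 : ℝ) : ℂ) + D - (A + B) = D := by intro A B D; push_cast; ring
    rw [this]
    exact key _ _ _ _ ((h3 z hz).trans (by linarith)) ((h5 z hz).trans (by linarith))
      (Real.abs_sin_le_one _) (Real.abs_sin_le_one _)

lemma sq_near {x y : ℂ} {η : ℝ} (hx : ‖x‖ ≤ 1) (h : ‖y - x‖ ≤ η) (hη : η ≤ 1) :
    |‖y‖ ^ 2 - ‖x‖ ^ 2| ≤ 3 * η := by
  have h1 : |‖y‖ - ‖x‖| ≤ η := (abs_norm_sub_norm_le y x).trans h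
  have h2 : ‖y‖ ≤ 2 := by
    have := abs_le.1 h1
    linarith
  have h3 : ‖y‖ ^ 2 - ‖x‖ ^ 2 = (‖y‖ - ‖x‖) * (‖y‖ + ‖x‖) := by ring
  rw [h3, abs_mul, abs_of_nonneg (by positivity : 0 ≤ ‖y‖ + ‖x‖)]
  have h4 : 0 ≤ |‖y‖ - ‖x‖| := abs_nonneg _
  have h5 : 0 ≤ ‖y‖ + ‖x‖ := by positivity
  nlinarith

lemma dir_step {K : Set E} (hK : IsCompact K) {f : E → ℂ} (hf : Sm K f) {e e' : E}
    (l : E →L[ℝ] ℝ) (he : l e = 1) (he' : l e' = 0) {s : ℝ} (hs : 0 < s) (hs1 : s ≤ 1 / 4)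
    (hw : ∀ z ∈ K, s ^ 2 / 4 < 1 - ‖fderiv ℝ f z e‖ ^ 2 ∧ 1 - ‖fderiv ℝ f z e‖ ^ 2 ≤ 2 * s ^ 2)
    {ε : ℝ} (hε : 0 < ε) (hε1 : ε ≤ s ^ 2) :
    ∃ g : E → ℂ, Sm K g ∧ ∀ z ∈ K, ‖g z - f z‖ ≤ ε ∧
      ‖fderiv ℝ g z e' - fderiv ℝ f z e'‖ ≤ ε ∧ ‖fderiv ℝ g z e - fderiv ℝ f z e‖ ≤ 3 * s ∧
      3 * s ^ 2 / 16 - ε ≤ 1 - ‖fderiv ℝ g z e‖ ^ 2 ∧
      1 - ‖fderiv ℝ g z e‖ ^ 2 ≤ s ^ 2 / 4 + ε := by
  obtain ⟨U, hU, hKU, hfU⟩ := hf
  set w : E → ℂ := fun z => fderiv ℝ f z e with hwdef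
  have hwU : ContDiffOn ℝ ∞ w U := by
    have h1 : ContDiffOn ℝ ∞ (fderiv ℝ f) U := hfU.fderiv_of_isOpen hU (by simp)
    exact h1.clm_apply contDiffOn_const
  have hwc : ContinuousOn (fun z => ‖w z‖ ^ 2) U := (hwU.continuousOn.norm).pow 2
  set V : Set E := U ∩ (fun z => ‖w z‖ ^ 2) ⁻¹' (Ioo 0 (1 - s ^ 2 / 4)) with hV
  have hVo : IsOpen V := hwc.isOpen_inter_preimage hU isOpen_Ioo
  have hs2 : s ^ 2 ≤ 1 / 16 := by nlinarith
  have hKV : K ⊆ V := by
    intro z hz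
    obtain ⟨h1, h2⟩ := hw z hz
    refine ⟨hKU hz, ?_, ?_⟩
    · change 0 < ‖w z‖ ^ 2
      have : 1 - ‖w z‖ ^ 2 ≤ 2 * s ^ 2 := h2
      linarith
    · change ‖w z‖ ^ 2 < 1 - s ^ 2 / 4
      have : s ^ 2 / 4 < 1 - ‖w z‖ ^ 2 := h1
      linarith
  have hwV : ContDiffOn ℝ ∞ w V := hwU.mono inter_subset_left
  set κ : E → ℝ := fun z => Real.sqrt (2 * ((1 - s ^ 2 / 4) / ‖w z‖ ^ 2 - 1)) with hκ
  have hpos : ∀ z ∈ V, 0 < 2 * ((1 - s ^ 2 / 4) / ‖w z‖ ^ 2 - 1) := by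
    rintro z ⟨-, h1, h2⟩
    have h3 : 1 < (1 - s ^ 2 / 4) / ‖w z‖ ^ 2 := by
      rw [lt_div_iff₀ h1]
      linarith [show ‖w z‖ ^ 2 < 1 - s ^ 2 / 4 from h2]
    linarith
  have hκV : ContDiffOn ℝ ∞ κ V := by
    apply ContDiffOn.sqrt
    · exact contDiffOn_const.mul ((contDiffOn_const.div (hwV.norm_sq ℝ)
        (fun z hz => (show (0 : ℝ) < ‖w z‖ ^ 2 from hz.2.1).ne')).sub contDiffOn_const)
    · intro z hz
      exact (hpos z hz).ne'
  have hκC : ContDiffOn ℝ ∞ (fun z => ((κ z : ℝ) : ℂ)) V :=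
    Complex.ofRealCLM.contDiff.comp_contDiffOn hκV
  have ha : ContDiffOn ℝ ∞ (fun z => I * ((κ z : ℝ) : ℂ) * w z) V :=
    (contDiffOn_const.mul hκC).mul hwV
  have hb : ContDiffOn ℝ ∞ (fun z => ((κ z : ℝ) : ℂ) ^ 2 / 8 * w z) V :=
    ((hκC.pow 2).div_const 8).mul hwV
  have hfV : ContDiffOn ℝ ∞ f V := hfU.mono inter_subset_left
  obtain ⟨N, hN⟩ := osc hK hVo hKV hfV ha hb l (η := ε / 3) (by positivity) he he'
  refine ⟨_, ⟨V, hVo, hKV, gN_smooth hfV ha hb l N⟩, fun z hz => ?_⟩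
  obtain ⟨g1, g2, g3⟩ := hN z hz
  refine ⟨g1.trans (by linarith), g2.trans (by linarith), ?_⟩
  obtain ⟨w1, w2⟩ := hw z hz
  change s ^ 2 / 4 < 1 - ‖w z‖ ^ 2 at w1
  change 1 - ‖w z‖ ^ 2 ≤ 2 * s ^ 2 at w2
  set W : ℝ := ‖w z‖ ^ 2 with hW
  have hW0 : 7 / 8 ≤ W := by linarith
  have hWpos : 0 < W := by linarith
  set k : ℝ := κ z with hk
  have hk0 : 0 ≤ k := Real.sqrt_nonneg _
  have hk2 : k ^ 2 = 2 * ((1 - s ^ 2 / 4) / W - 1) := Real.sq_sqrt (hpos z (hKV hz)).le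
  have hWk : W * (1 + k ^ 2 / 2) = 1 - s ^ 2 / 4 := by
    rw [hk2]; field_simp; ring
  have hk4 : k ^ 2 ≤ 4 * s ^ 2 := by
    have h1 : W * k ^ 2 = 2 * (1 - s ^ 2 / 4 - W) := by linarith
    have h2 : 0 ≤ k ^ 2 := by positivity
    nlinarith
  have hk2s : k ≤ 2 * s := by
    apply le_of_sq_le_sq _ (by positivity)
    nlinarith
  have hw1 : ‖w z‖ ≤ 1 := by
    have h1 : ‖w z‖ ^ 2 ≤ 1 := by rw [← hW]; nlinarith
    have h2 := norm_nonneg (w z)
    nlinarith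
  set c : ℝ := Real.cos (N * l z) with hc
  have hc2 : Real.cos (2 * (N * l z)) = 2 * c ^ 2 - 1 := Real.cos_two_mul _
  have hcc : |c| ≤ 1 := Real.abs_cos_le_one _
  have hc22 : |2 * c ^ 2 - 1| ≤ 1 := by rw [← hc2]; exact Real.abs_cos_le_one _
  rw [hc2] at g3
  set d : ℝ := 2 * c ^ 2 - 1 with hd
  set R := fderiv ℝ (gN f (fun z => I * ((κ z : ℝ) : ℂ) * w z)
    (fun z => ((κ z : ℝ) : ℂ) ^ 2 / 8 * w z) l N) z e with hR
  have hX : fderiv ℝ f z e + (I * ((κ z : ℝ) : ℂ) * w z * (c : ℂ) -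
      2 * (((κ z : ℝ) : ℂ) ^ 2 / 8 * w z) * (d : ℂ)) =
      w z * (((1 - k ^ 2 / 4 * d : ℝ) : ℂ) + ((k * c : ℝ) : ℂ) * I) := by
    rw [← hk]
    change w z + _ = _
    push_cast
    ring
  rw [hX] at g3
  set X : ℂ := w z * (((1 - k ^ 2 / 4 * d : ℝ) : ℂ) + ((k * c : ℝ) : ℂ) * I) with hXdef
  have hXn : ‖X‖ ^ 2 = (1 - s ^ 2 / 4) + W * (k ^ 2) ^ 2 / 16 * d ^ 2 := by
    rw [hXdef, norm_mul, mul_pow, ← hW, ← hWk, ← Complex.normSq_eq_norm_sq,
      Complex.normSq_add_mul_I, hd]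
    ring
  have hd2 : d ^ 2 ≤ 1 := by
    rw [← sq_abs]
    have := abs_nonneg d
    nlinarith
  have hd0 : 0 ≤ d ^ 2 := sq_nonneg _
  have hW1 : W ≤ 1 := by nlinarith
  have hkk : (k ^ 2) ^ 2 ≤ 16 * s ^ 2 * (1 / 16) := by
    have h1 : 0 ≤ k ^ 2 := by positivity
    have h2 : 0 ≤ s ^ 2 := by positivity
    have h3 : (k ^ 2) ^ 2 ≤ (4 * s ^ 2) ^ 2 := pow_le_pow_left₀ h1 hk4 2
    have h4 : s ^ 2 * s ^ 2 ≤ s ^ 2 * (1 / 16) := mul_le_mul_of_nonneg_left hs2 h2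
    linarith [h3, h4, show (4 * s ^ 2) ^ 2 = 16 * (s ^ 2 * s ^ 2) by ring]
  have herr0 : 0 ≤ W * (k ^ 2) ^ 2 / 16 * d ^ 2 := by positivity
  have herr1 : W * (k ^ 2) ^ 2 / 16 * d ^ 2 ≤ s ^ 2 / 16 := by
    have h1 : 0 ≤ (k ^ 2) ^ 2 := by positivity
    have h2 : W * (k ^ 2) ^ 2 / 16 ≤ s ^ 2 / 16 := by nlinarith
    have h3 : 0 ≤ W * (k ^ 2) ^ 2 / 16 := by positivity
    nlinarith
  have hX1 : ‖X‖ ≤ 1 := by
    have h1 : ‖X‖ ^ 2 ≤ 1 := by rw [hXn]; nlinarith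
    have h2 := norm_nonneg X
    nlinarith
  have hnear := sq_near hX1 g3 (by nlinarith)
  rw [hXn] at hnear
  have hab := abs_le.1 hnear
  refine ⟨?_, by linarith [hab.1, hab.2], by linarith [hab.1, hab.2]⟩
  have e1 : R - fderiv ℝ f z e = (R - X) + (X - w z) := by
    change R - w z = _
    ring
  rw [e1]
  refine (norm_add_le _ _).trans ?_
  have e2 : X - w z = w z * (((- (k ^ 2 / 4 * d) : ℝ) : ℂ) + ((k * c : ℝ) : ℂ) * I) := by
    rw [hXdef]; push_cast; ring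
  have e3 : ‖X - w z‖ ≤ k ^ 2 / 4 + k := by
    rw [e2, norm_mul]
    have h1 : ‖((- (k ^ 2 / 4 * d) : ℝ) : ℂ) + ((k * c : ℝ) : ℂ) * I‖ ≤ k ^ 2 / 4 + k := by
      refine (norm_add_le _ _).trans ?_
      rw [norm_mul, Complex.norm_I, mul_one, Complex.norm_real, Complex.norm_real,
        Real.norm_eq_abs, Real.norm_eq_abs, abs_neg, abs_mul, abs_mul, abs_of_nonneg hk0,
        abs_of_nonneg (by positivity : 0 ≤ k ^ 2 / 4)]
      have h3 : 0 ≤ k ^ 2 / 4 := by positivity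
      have h4 := mul_le_mul_of_nonneg_left hc22 h3
      have h5 := mul_le_mul_of_nonneg_left hcc hk0
      linarith
    have h2 : 0 ≤ ‖((- (k ^ 2 / 4 * d) : ℝ) : ℂ) + ((k * c : ℝ) : ℂ) * I‖ := norm_nonneg _
    have h3 := mul_le_mul hw1 h1 h2 zero_le_one
    linarith
  have h6 : s ^ 2 ≤ s * (1 / 4) := by nlinarith
  linarith

def P (K : Set E) (s : ℝ) (f : E → ℂ) : Prop := Sm K f ∧ ∀ z ∈ K,
  (s ^ 2 / 3 ≤ 1 - ‖fderiv ℝ f z (1, 0)‖ ^ 2 ∧ 1 - ‖fderiv ℝ f z (1, 0)‖ ^ 2 ≤ s ^ 2) ∧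
  (s ^ 2 / 3 ≤ 1 - ‖fderiv ℝ f z (0, 1)‖ ^ 2 ∧ 1 - ‖fderiv ℝ f z (0, 1)‖ ^ 2 ≤ s ^ 2)

lemma step {K : Set E} (hK : IsCompact K) {f : E → ℂ} {s : ℝ} (hs : 0 < s) (hs1 : s ≤ 1 / 4)
    (hf : P K s f) {ε : ℝ} (hε : 0 < ε) :
    ∃ g : E → ℂ, P K (5 / 8 * s) g ∧ ∀ z ∈ K, ‖g z - f z‖ ≤ ε ∧
      ‖fderiv ℝ g z (1, 0) - fderiv ℝ f z (1, 0)‖ ≤ 4 * s ∧
      ‖fderiv ℝ g z (0, 1) - fderiv ℝ f z (0, 1)‖ ≤ 4 * s := by
  obtain ⟨hfs, hf⟩ := hf
  have hs2 : 0 < s ^ 2 := by positivity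
  have hs3 : s ^ 2 ≤ s * (1 / 4) := by nlinarith
  set ε1 : ℝ := min (ε / 2) (s ^ 2 / 100) with hε1
  have hε1pos : 0 < ε1 := lt_min (by linarith) (by positivity)
  have hε2 : ε1 ≤ ε / 2 := min_le_left _ _
  have hε3 : ε1 ≤ s ^ 2 / 100 := min_le_right _ _
  have hnorm : ∀ x : ℂ, s ^ 2 / 3 ≤ 1 - ‖x‖ ^ 2 → ‖x‖ ≤ 1 := by
    intro x hx
    have h1 := norm_nonneg x
    nlinarith
  obtain ⟨f1, hf1s, hf1⟩ := dir_step hK hfs (e := ((1, 0) : E)) (e' := ((0, 1) : E))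
    (ContinuousLinearMap.fst ℝ ℝ ℝ) (by simp) (by simp) hs hs1
    (fun z hz => ⟨by linarith [(hf z hz).1.1], by linarith [(hf z hz).1.2]⟩) hε1pos (by linarith)
  have hv1 : ∀ z ∈ K, |‖fderiv ℝ f1 z (0, 1)‖ ^ 2 - ‖fderiv ℝ f z (0, 1)‖ ^ 2| ≤ 3 * ε1 :=
    fun z hz => sq_near (hnorm _ (hf z hz).2.1) (hf1 z hz).2.1 (by nlinarith)
  obtain ⟨f2, hf2s, hf2⟩ := dir_step hK hf1s (e := ((0, 1) : E)) (e' := ((1, 0) : E))
    (ContinuousLinearMap.snd ℝ ℝ ℝ) (by simp) (by simp) hs hs1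
    (fun z hz => by
      have h1 := abs_le.1 (hv1 z hz)
      have h2 := (hf z hz).2
      exact ⟨by linarith [h1.1, h1.2, h2.1], by linarith [h1.1, h1.2, h2.2]⟩) hε1pos (by linarith)
  refine ⟨f2, ⟨hf2s, fun z hz => ?_⟩, fun z hz => ⟨?_, ?_, ?_⟩⟩
  · obtain ⟨-, b1, b2, b3, b4⟩ := hf1 z hz
    obtain ⟨-, c1, c2, c3, c4⟩ := hf2 z hz
    have hn : ‖fderiv ℝ f1 z (1, 0)‖ ≤ 1 := by
      have h1 := norm_nonneg (fderiv ℝ f1 z (1, 0))
      nlinarith
    have h3 := abs_le.1 (sq_near hn c1 (by nlinarith))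
    have e1 : (5 / 8 * s) ^ 2 = 25 / 64 * s ^ 2 := by ring
    rw [e1]
    exact ⟨⟨by linarith [h3.1, h3.2], by linarith [h3.1, h3.2]⟩, ⟨by linarith, by linarith⟩⟩
  · have h1 : f2 z - f z = (f2 z - f1 z) + (f1 z - f z) := by ring
    rw [h1]
    refine (norm_add_le _ _).trans ?_
    linarith [(hf1 z hz).1, (hf2 z hz).1]
  · have h1 : fderiv ℝ f2 z (1, 0) - fderiv ℝ f z (1, 0) = (fderiv ℝ f2 z (1, 0) -
      fderiv ℝ f1 z (1, 0)) + (fderiv ℝ f1 z (1, 0) - fderiv ℝ f z (1, 0)) := by ring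
    rw [h1]
    refine (norm_add_le _ _).trans ?_
    linarith [(hf1 z hz).2.2.1, (hf2 z hz).2.1]
  · have h1 : fderiv ℝ f2 z (0, 1) - fderiv ℝ f z (0, 1) = (fderiv ℝ f2 z (0, 1) -
      fderiv ℝ f1 z (0, 1)) + (fderiv ℝ f1 z (0, 1) - fderiv ℝ f z (0, 1)) := by ring
    rw [h1]
    refine (norm_add_le _ _).trans ?_
    linarith [(hf1 z hz).2.1, (hf2 z hz).2.2.1]

lemma seq_exists {K : Set E} (hK : IsCompact K) {f0 : E → ℂ} {s ε : ℝ} (hs : 0 < s)
    (hs1 : s ≤ 1 / 4) (hf0 : P K s f0) (hε : 0 < ε) :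
    ∃ F : ℕ → E → ℂ, F 0 = f0 ∧ ∀ n, P K ((5 / 8) ^ n * s) (F n) ∧ ∀ z ∈ K,
      ‖F (n + 1) z - F n z‖ ≤ ε * (5 / 8) ^ n ∧
      ‖fderiv ℝ (F (n + 1)) z (1, 0) - fderiv ℝ (F n) z (1, 0)‖ ≤ 4 * s * (5 / 8) ^ n ∧
      ‖fderiv ℝ (F (n + 1)) z (0, 1) - fderiv ℝ (F n) z (0, 1)‖ ≤ 4 * s * (5 / 8) ^ n := by
  have h : ∀ (n : ℕ) (f : {f : E → ℂ // P K ((5 / 8) ^ n * s) f}),
      ∃ g : {g : E → ℂ // P K ((5 / 8) ^ (n + 1) * s) g}, ∀ z ∈ K,
      ‖g.1 z - f.1 z‖ ≤ ε * (5 / 8) ^ n ∧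
      ‖fderiv ℝ g.1 z (1, 0) - fderiv ℝ f.1 z (1, 0)‖ ≤ 4 * s * (5 / 8) ^ n ∧
      ‖fderiv ℝ g.1 z (0, 1) - fderiv ℝ f.1 z (0, 1)‖ ≤ 4 * s * (5 / 8) ^ n := by
    intro n f
    have h1 : ((5 : ℝ) / 8) ^ n ≤ 1 := pow_le_one₀ (by norm_num) (by norm_num)
    have h2 : 0 < ((5 : ℝ) / 8) ^ n := by positivity
    obtain ⟨g, hg, hg'⟩ := step hK (s := (5 / 8) ^ n * s) (by positivity) (by nlinarith) f.2
      (ε := ε * (5 / 8) ^ n) (by positivity)
    refine ⟨⟨g, ?_⟩, fun z hz => ?_⟩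
    · have : (5 / 8 : ℝ) ^ (n + 1) * s = 5 / 8 * ((5 / 8) ^ n * s) := by ring
      rw [this]; exact hg
    · obtain ⟨a1, a2, a3⟩ := hg' z hz
      exact ⟨a1, by linarith, by linarith⟩
  choose nx hnx using h
  let F : (n : ℕ) → {f : E → ℂ // P K ((5 / 8) ^ n * s) f} := fun n =>
    Nat.rec (motive := fun n => {f : E → ℂ // P K ((5 / 8) ^ n * s) f})
      ⟨f0, by simpa using hf0⟩ (fun n f => nx n f) n
  refine ⟨fun n => (F n).1, rfl, fun n => ⟨(F n).2, fun z hz => ?_⟩⟩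
  exact hnx n (F n) z hz

lemma lim_of_geom {K : Set E} {a : ℕ → E → ℂ} {C : ℝ}
    (h : ∀ n, ∀ z ∈ K, ‖a (n + 1) z - a n z‖ ≤ C * (5 / 8) ^ n) :
    ∃ b : E → ℂ, ∀ n, ∀ z ∈ K, ‖a n z - b z‖ ≤ C * (5 / 8) ^ n * (8 / 3) := by
  have h1 : ∀ z, ∃ L : ℂ, z ∈ K → Tendsto (fun n => a n z) atTop (𝓝 L) := by
    intro z
    by_cases hz : z ∈ K
    · have hc : CauchySeq (fun n => a n z) := by
        apply cauchySeq_of_le_geometric (5 / 8) C (by norm_num)
        intro n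
        rw [dist_comm, dist_eq_norm]
        exact h n z hz
      obtain ⟨L, hL⟩ := cauchySeq_tendsto_of_complete hc
      exact ⟨L, fun _ => hL⟩
    · exact ⟨0, fun h => absurd h hz⟩
  choose b hb using h1
  refine ⟨b, fun n z hz => ?_⟩
  have h2 := dist_le_of_le_geometric_of_tendsto (5 / 8) C (by norm_num)
    (f := fun n => a n z) (fun n => by rw [dist_comm, dist_eq_norm]; exact h n z hz) (hb z hz) n
  rw [dist_eq_norm] at h2
  refine h2.trans (le_of_eq ?_)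
  norm_num
  ring

lemma unif {K : Set E} {a : ℕ → E → ℂ} {b : E → ℂ} {C : ℝ}
    (h : ∀ n, ∀ z ∈ K, ‖a n z - b z‖ ≤ C * (5 / 8) ^ n * (8 / 3)) {η : ℝ} (hη : 0 < η) :
    ∀ᶠ n in atTop, ∀ z ∈ K, ‖a n z - b z‖ < η := by
  have h1 : Tendsto (fun n : ℕ => C * (5 / 8 : ℝ) ^ n * (8 / 3)) atTop (𝓝 (C * 0 * (8 / 3))) :=
    ((tendsto_pow_atTop_nhds_zero_of_lt_one (by norm_num) (by norm_num)).const_mul C).mul_const _
  have h2 : ∀ᶠ n : ℕ in atTop, C * (5 / 8 : ℝ) ^ n * (8 / 3) < η := by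
    apply h1.eventually_lt_const
    simpa using hη
  filter_upwards [h2] with n hn z hz
  exact (h n z hz).trans_lt hn

/-- the linear map with the partial derivatives `a`, `b` -/
noncomputable def LL (a b : ℂ) : E →L[ℝ] ℂ :=
  (ContinuousLinearMap.fst ℝ ℝ ℝ).smulRight a + (ContinuousLinearMap.snd ℝ ℝ ℝ).smulRight b

lemma LL_apply (a b : ℂ) (z : E) : LL a b z = (z.1 : ℂ) * a + (z.2 : ℂ) * b := by
  simp [LL]

lemma LL_eq (T : E →L[ℝ] ℂ) : T = LL (T (1, 0)) (T (0, 1)) := by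
  ext <;> simp [LL]

lemma LL_sub (a b a' b' : ℂ) : ‖LL a b - LL a' b'‖ ≤ ‖a - a'‖ + ‖b - b'‖ := by
  apply ContinuousLinearMap.opNorm_le_bound _ (by positivity)
  intro z
  have h1 : (LL a b - LL a' b') z = (z.1 : ℂ) * (a - a') + (z.2 : ℂ) * (b - b') := by
    rw [sub_apply, LL_apply, LL_apply]; ring
  rw [h1]
  refine (norm_add_le _ _).trans ?_
  rw [norm_mul, norm_mul, Complex.norm_real, Complex.norm_real]
  have h2 : ‖z.1‖ ≤ ‖z‖ := norm_fst_le z
  have h3 : ‖z.2‖ ≤ ‖z‖ := norm_snd_le z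
  have h4 := norm_nonneg (a - a')
  have h5 := norm_nonneg (b - b')
  nlinarith

lemma limit_exists {K : Set E} (hK : IsCompact K) {f0 : E → ℂ} {s ε : ℝ} (hs : 0 < s)
    (hs1 : s ≤ 1 / 4) (hf0 : P K s f0) (hε : 0 < ε) :
    ∃ f A B : E → ℂ, (∀ z ∈ K, ‖f0 z - f z‖ ≤ ε * (8 / 3) ∧
      ‖fderiv ℝ f0 z (1, 0) - A z‖ ≤ 4 * s * (8 / 3) ∧
      ‖fderiv ℝ f0 z (0, 1) - B z‖ ≤ 4 * s * (8 / 3) ∧ ‖A z‖ = 1 ∧ ‖B z‖ = 1) ∧
      ContinuousOn A K ∧ ContinuousOn B K ∧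
      ∀ z ∈ interior K, HasFDerivAt f (LL (A z) (B z)) z := by
  obtain ⟨F, hF0, hF⟩ := seq_exists hK hs hs1 hf0 hε
  obtain ⟨f, hf⟩ := lim_of_geom (fun n z hz => ((hF n).2 z hz).1)
  obtain ⟨A, hA⟩ := lim_of_geom (a := fun n z => fderiv ℝ (F n) z (1, 0))
    (fun n z hz => ((hF n).2 z hz).2.1)
  obtain ⟨B, hB⟩ := lim_of_geom (a := fun n z => fderiv ℝ (F n) z (0, 1))
    (fun n z hz => ((hF n).2 z hz).2.2)
  have hs4 : 0 ≤ 4 * s := by positivity
  have hcont : ∀ (n : ℕ) (v : E), ContinuousOn (fun z => fderiv ℝ (F n) z v) K := by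
    intro n v
    obtain ⟨U, hU, hKU, hfU⟩ := (hF n).1.1
    have h1 : ContinuousOn (fun z => fderiv ℝ (F n) z) U :=
      hfU.continuousOn_fderiv_of_isOpen hU (by simp)
    exact (h1.clm_apply continuousOn_const).mono hKU
  have hlim : ∀ (a : ℕ → E → ℂ) (b : E → ℂ) (C : ℝ), 0 ≤ C →
      (∀ n, ∀ z ∈ K, ‖a n z - b z‖ ≤ C * (5 / 8) ^ n * (8 / 3)) →
      TendstoUniformlyOn a b atTop K := by
    intro a b C hC h
    rw [Metric.tendstoUniformlyOn_iff]
    intro η hη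
    filter_upwards [unif h hη] with n hn z hz
    rw [dist_comm, dist_eq_norm]
    exact hn z hz
  have hAu := hlim _ _ _ hs4 hA
  have hBu := hlim _ _ _ hs4 hB
  have hpw : Tendsto (fun n : ℕ => ((5 / 8 : ℝ) ^ n * s) ^ 2) atTop (𝓝 0) := by
    have h1 : Tendsto (fun n : ℕ => ((5 / 8 : ℝ) ^ n * s) ^ 2) atTop (𝓝 ((0 * s) ^ 2)) :=
      ((tendsto_pow_atTop_nhds_zero_of_lt_one (by norm_num) (by norm_num)).mul_const s).pow 2
    simpa using h1
  have hunit : ∀ (a : ℕ → ℂ) (b : ℂ), Tendsto a atTop (𝓝 b) →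
      (∀ n, ((5 / 8 : ℝ) ^ n * s) ^ 2 / 3 ≤ 1 - ‖a n‖ ^ 2 ∧ 1 - ‖a n‖ ^ 2 ≤ ((5 / 8 : ℝ) ^ n * s) ^ 2) →
      ‖b‖ = 1 := by
    intro a b hab h
    have h1 : Tendsto (fun n => 1 - ‖a n‖ ^ 2) atTop (𝓝 (1 - ‖b‖ ^ 2)) :=
      tendsto_const_nhds.sub (hab.norm.pow 2)
    have h2 : Tendsto (fun n => 1 - ‖a n‖ ^ 2) atTop (𝓝 0) := by
      refine tendsto_of_tendsto_of_tendsto_of_le_of_le tendsto_const_nhds hpw ?_ (fun n => (h n).2)
      intro n
      have := (h n).1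
      have h3 : 0 ≤ ((5 / 8 : ℝ) ^ n * s) ^ 2 := by positivity
      change 0 ≤ 1 - ‖a n‖ ^ 2
      linarith
    have h3 := tendsto_nhds_unique h1 h2
    have h4 : ‖b‖ ^ 2 = 1 := by linarith
    have h5 := norm_nonneg b
    nlinarith
  refine ⟨f, A, B, fun z hz => ⟨?_, ?_, ?_, ?_, ?_⟩, ?_, ?_, fun z hz => ?_⟩
  · have := hf 0 z hz
    rw [hF0] at this
    simpa using this
  · have := hA 0 z hz
    simp only [hF0] at this
    simpa using this
  · have := hB 0 z hz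
    simp only [hF0] at this
    simpa using this
  · exact hunit _ _ (hAu.tendsto_at hz) (fun n => ((hF n).1.2 z hz).1)
  · exact hunit _ _ (hBu.tendsto_at hz) (fun n => ((hF n).1.2 z hz).2)
  · exact hAu.continuousOn (Frequently.of_forall fun n => hcont n _)
  · exact hBu.continuousOn (Frequently.of_forall fun n => hcont n _)
  · refine hasFDerivAt_of_tendstoUniformlyOn (l := atTop) (f := F) (f' := fun n z => fderiv ℝ (F n) z)
      (g := f) (g' := fun z => LL (A z) (B z)) isOpen_interior ?_ ?_ ?_ hz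
    · rw [Metric.tendstoUniformlyOn_iff]
      intro η hη
      filter_upwards [unif hA (half_pos hη), unif hB (half_pos hη)] with n h1 h2 z hz
      rw [dist_comm, dist_eq_norm, LL_eq (fderiv ℝ (F n) z)]
      refine (LL_sub _ _ _ _).trans_lt ?_
      linarith [h1 z (interior_subset hz), h2 z (interior_subset hz)]
    · intro n z hz
      obtain ⟨U, hU, hKU, hfU⟩ := (hF n).1.1
      exact ((hfU.contDiffAt (hU.mem_nhds (hKU (interior_subset hz)))).differentiableAt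
        (by simp)).hasFDerivAt
    · intro z hz
      exact (hlim _ _ _ hε.le hf).tendsto_at (interior_subset hz)

lemma I_exp (θ : ℝ) : I * Complex.exp (-(I * (θ : ℂ))) = (Real.sin θ : ℂ) + I * (Real.cos θ : ℂ) := by
  have h1 : -(I * (θ : ℂ)) = ((-θ : ℝ) : ℂ) * I := by push_cast; ring
  rw [h1, Complex.exp_mul_I, ← Complex.ofReal_cos, ← Complex.ofReal_sin, Real.cos_neg, Real.sin_neg]
  push_cast
  linear_combination (-(Complex.sin (θ : ℂ))) * Complex.I_mul_I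

lemma LL_inj {a b : ℂ} {θ : ℝ} (ha : a ≠ 0) (hb : b = I * Complex.exp (-(I * (θ : ℂ))) * a)
    (hθ : Real.cos θ ≠ 0) : Function.Injective (LL a b) := by
  rw [injective_iff_map_eq_zero]
  intro z hz
  rw [LL_apply, hb, I_exp] at hz
  have h1 : ((z.1 : ℂ) + (z.2 : ℂ) * ((Real.sin θ : ℂ) + I * (Real.cos θ : ℂ))) * a = 0 := by
    rw [← hz]; ring
  have h2 := (mul_eq_zero.1 h1).resolve_right ha
  have h3 := congrArg Complex.im h2
  have h4 := congrArg Complex.re h2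
  simp only [Complex.add_re, Complex.mul_re, Complex.add_im, Complex.mul_im, Complex.ofReal_re,
    Complex.ofReal_im, Complex.I_re, Complex.I_im, Complex.zero_re, Complex.zero_im] at h3 h4
  have h5 : z.2 * Real.cos θ = 0 := by linarith
  have h6 : z.2 = 0 := (mul_eq_zero.1 h5).resolve_right hθ
  rw [h6] at h4
  have h7 : z.1 = 0 := by linarith
  exact Prod.ext h7 h6

lemma LL_equiv {a b : ℂ} {θ : ℝ} (ha : a ≠ 0) (hb : b = I * Complex.exp (-(I * (θ : ℂ))) * a)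
    (hθ : Real.cos θ ≠ 0) : ∃ T : E ≃L[ℝ] ℂ, (T : E →L[ℝ] ℂ) = LL a b := by
  have hinj := LL_inj ha hb hθ
  have hfin : Module.finrank ℝ E = Module.finrank ℝ ℂ := by
    rw [Complex.finrank_real_complex, Module.finrank_prod, Module.finrank_self]
  have hsurj : Function.Surjective (LL a b : E →ₗ[ℝ] ℂ) :=
    (LinearMap.injective_iff_surjective_of_finrank_eq_finrank hfin).1 hinj
  refine ⟨ContinuousLinearEquiv.ofBijective (LL a b) (LinearMap.ker_eq_bot.2 hinj)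
    (LinearMap.range_eq_top.2 hsurj), ?_⟩
  exact ContinuousLinearEquiv.coe_ofBijective _ _ _

lemma rigid {f A B : E → ℂ} {p : E} {g h : ℝ → ℝ} (hg : Continuous g) (hh : Continuous h)
    (hf : ∀ᶠ z in 𝓝 p, HasFDerivAt f (LL (A z) (B z)) z) (hA : ∀ᶠ z in 𝓝 p, ‖A z‖ = 1)
    (hB : ∀ᶠ z in 𝓝 p, B z = I * Complex.exp (-(I * ((g z.1 + h z.2 : ℝ) : ℂ))) * A z)
    (hcos : Real.cos (g p.1 + h p.2) ≠ 0) :
    ∃ m : ℂ, ∀ᶠ z in 𝓝 p, A z = Complex.exp (I * (g z.1 : ℂ)) * m := by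
  set α : ℝ → ℂ := fun u => Complex.exp (I * (g u : ℂ)) with hα
  set β : ℝ → ℂ := fun v => I * Complex.exp (-(I * (h v : ℂ))) with hβ
  have hαc : Continuous α := by
    exact Complex.continuous_exp.comp (continuous_const.mul (Complex.continuous_ofReal.comp hg))
  have hβc : Continuous β := continuous_const.mul (Complex.continuous_exp.comp
    (continuous_const.mul (Complex.continuous_ofReal.comp hh)).neg)
  have hα1 : ∀ u, α u ≠ 0 := fun u => Complex.exp_ne_zero _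
  set F : E → ℂ := fun z => (∫ t in (0 : ℝ)..z.1, α t) + ∫ t in (0 : ℝ)..z.2, β t with hF
  have hG : ∀ u, HasDerivAt (fun u => ∫ t in (0 : ℝ)..u, α t) (α u) u := fun u =>
    intervalIntegral.integral_hasDerivAt_right (hαc.intervalIntegrable _ _)
      (hαc.stronglyMeasurableAtFilter _ _) hαc.continuousAt
  have hH : ∀ u, HasDerivAt (fun u => ∫ t in (0 : ℝ)..u, β t) (β u) u := fun u =>
    intervalIntegral.integral_hasDerivAt_right (hβc.intervalIntegrable _ _)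
      (hβc.stronglyMeasurableAtFilter _ _) hβc.continuousAt
  have hFd : ∀ z : E, HasFDerivAt F (LL (α z.1) (β z.2)) z := by
    intro z
    have h1 : HasFDerivAt (fun z : E => ∫ t in (0 : ℝ)..z.1, α t)
        ((ContinuousLinearMap.fst ℝ ℝ ℝ).smulRight (α z.1)) z := by
      have := (hG z.1).hasFDerivAt.comp z (hasFDerivAt_fst (𝕜 := ℝ) (E := ℝ) (F := ℝ) (p := z))
      refine this.congr_fderiv ?_
      ext <;> simp
    have h2 : HasFDerivAt (fun z : E => ∫ t in (0 : ℝ)..z.2, β t)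
        ((ContinuousLinearMap.snd ℝ ℝ ℝ).smulRight (β z.2)) z := by
      have := (hH z.2).hasFDerivAt.comp z (hasFDerivAt_snd (𝕜 := ℝ) (E := ℝ) (F := ℝ) (p := z))
      refine this.congr_fderiv ?_
      ext <;> simp
    exact h1.add h2
  have hβα : ∀ z : E, β z.2 = I * Complex.exp (-(I * ((g z.1 + h z.2 : ℝ) : ℂ))) * α z.1 := by
    intro z
    simp only [hα, hβ]
    rw [mul_assoc, ← Complex.exp_add]
    congr 2
    push_cast
    ring
  have hLLc : Continuous (fun z : E => LL (α z.1) (β z.2)) := by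
    rw [continuous_iff_continuousAt]
    intro z0
    rw [ContinuousAt, tendsto_iff_norm_sub_tendsto_zero]
    have h1 : Tendsto (fun z : E => ‖α z.1 - α z0.1‖ + ‖β z.2 - β z0.2‖) (𝓝 z0) (𝓝 0) := by
      have h2 : Continuous (fun z : E => ‖α z.1 - α z0.1‖ + ‖β z.2 - β z0.2‖) :=
        ((hαc.comp continuous_fst).sub continuous_const).norm.add
          ((hβc.comp continuous_snd).sub continuous_const).norm
      simpa using h2.tendsto z0
    exact squeeze_zero (fun _ => norm_nonneg _) (fun z => LL_sub _ _ _ _) h1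
  obtain ⟨T, hT⟩ := LL_equiv (hα1 p.1) (hβα p) hcos
  have hstrict : HasStrictFDerivAt F (T : E →L[ℝ] ℂ) p := by
    rw [hT]
    exact hasStrictFDerivAt_of_hasFDerivAt_of_continuousAt (Eventually.of_forall hFd)
      hLLc.continuousAt
  set e := hstrict.toOpenPartialHomeomorph F with he
  have hecoe : (e : E → ℂ) = F := hstrict.toOpenPartialHomeomorph_coe
  have hps : p ∈ e.source := hstrict.mem_toOpenPartialHomeomorph_source
  have hFp : e p = F p := by rw [hecoe]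
  have hpt : F p ∈ e.target := hFp ▸ e.map_source hps
  have hsymm : e.symm (F p) = p := by rw [← hFp]; exact e.left_inv hps
  have htend : Tendsto e.symm (𝓝 (F p)) (𝓝 p) := by
    have := e.symm.continuousAt (x := F p) hpt
    unfold ContinuousAt at this
    rwa [hsymm] at this
  have hcosE : ∀ᶠ z : E in 𝓝 p, Real.cos (g z.1 + h z.2) ≠ 0 := by
    have h1 : Continuous (fun z : E => Real.cos (g z.1 + h z.2)) :=
      Real.continuous_cos.comp ((hg.comp continuous_fst).add (hh.comp continuous_snd))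
    exact h1.continuousAt.eventually_ne hcos
  set m : E → ℂ := fun z => A z * Complex.exp (-(I * (g z.1 : ℂ))) with hm
  have hexp : ∀ u : ℝ, Complex.exp (-(I * (g u : ℂ))) * α u = 1 := by
    intro u
    simp only [hα]
    rw [← Complex.exp_add]
    simp
  have hAm : ∀ z, A z = m z * α z.1 := by
    intro z
    simp only [hm]
    rw [mul_assoc, hexp, mul_one]
  have hmn : ∀ᶠ z in 𝓝 p, ‖m z‖ = 1 := by
    filter_upwards [hA] with z hz
    simp only [hm]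
    rw [norm_mul, hz, one_mul, Complex.norm_exp]
    simp
  set Φ : ℂ → ℂ := fun y => f (e.symm y) with hΦ
  have hder : ∀ᶠ y in 𝓝 (F p), HasDerivAt Φ (m (e.symm y)) y := by
    have h1 := htend.eventually (hf.and (hB.and hcosE))
    have h2 : ∀ᶠ y in 𝓝 (F p), y ∈ e.target := e.open_target.mem_nhds hpt
    filter_upwards [h1, h2] with y hy1 hy2
    obtain ⟨q1, q2, q3⟩ := hy1
    set z := e.symm y with hz
    obtain ⟨T', hT'⟩ := LL_equiv (hα1 z.1) (hβα z) q3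
    have h3 : HasFDerivAt e (T' : E →L[ℝ] ℂ) (e.symm y) := by
      rw [hT', hecoe]
      exact hFd z
    have h4 := e.hasFDerivAt_symm hy2 h3
    have h5 : HasFDerivAt Φ ((LL (A z) (B z)).comp (T'.symm : ℂ →L[ℝ] E)) y :=
      HasFDerivAt.comp y q1 h4
    have hBm : B z = m z * β z.2 := by
      rw [q2, hβα z, hAm z]; ring
    have h6 : (m z • ContinuousLinearMap.id ℂ ℂ).restrictScalars ℝ =
        (LL (A z) (B z)).comp (T'.symm : ℂ →L[ℝ] E) := by
      apply ContinuousLinearMap.ext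
      intro x
      have h7 : LL (A z) (B z) (T'.symm x) = m z * LL (α z.1) (β z.2) (T'.symm x) := by
        rw [LL_apply, LL_apply, hBm, hAm z]
        ring
      have h8 : LL (α z.1) (β z.2) (T'.symm x) = x := by
        rw [← hT']
        exact T'.apply_symm_apply x
      change m z • x = LL (A z) (B z) (T'.symm x)
      rw [h7, h8, smul_eq_mul]
    have h9 := (hasFDerivAt_of_restrictScalars ℝ h5 h6).hasDerivAt
    simpa using h9
  have hderiv : ∀ᶠ y in 𝓝 (F p), deriv Φ y = m (e.symm y) := hder.mono fun y hy => hy.deriv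
  have han : AnalyticAt ℂ Φ (F p) :=
    Complex.analyticAt_iff_eventually_differentiableAt.2 (hder.mono fun y hy => hy.differentiableAt)
  have hdd : ∀ᶠ y in 𝓝 (F p), DifferentiableAt ℂ (deriv Φ) y :=
    han.deriv.eventually_analyticAt.mono fun y hy => hy.differentiableAt
  have hn1 : ∀ᶠ y in 𝓝 (F p), ‖deriv Φ y‖ = 1 := by
    filter_upwards [hderiv, htend.eventually hmn] with y h1 h2
    rw [h1, h2]
  have hmax : IsLocalMax (norm ∘ deriv Φ) (F p) := by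
    have h1 := hn1.self_of_nhds
    filter_upwards [hn1] with y hy
    simp only [Function.comp]
    rw [hy, h1]
  have hconst := Complex.eventually_eq_of_isLocalMax_norm hdd hmax
  have hFc : Tendsto F (𝓝 p) (𝓝 (F p)) := (hFd p).continuousAt
  refine ⟨m p, ?_⟩
  have h0 : deriv Φ (F p) = m p := by rw [hderiv.self_of_nhds, hsymm]
  filter_upwards [hFc.eventually hconst, hFc.eventually hderiv, e.open_source.mem_nhds hps]
    with z h1 h2 h3
  have h4 : e.symm (F z) = z := by rw [← hecoe]; exact e.left_inv h3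
  rw [h2, h4, h0] at h1
  rw [hAm z, h1, mul_comm]

/-! ### the initial short map -/

noncomputable def f0 (z : E) : ℂ :=
  LL ((24999 / 25000 : ℝ) : ℂ) (((24999 / 25000 : ℝ) : ℂ) * I) z +
    (((1 / 50000 : ℝ) * (z.1 * z.2) : ℝ) : ℂ)

lemma f0_deriv (z : E) : HasFDerivAt f0 (LL (((24999 / 25000 + 1 / 50000 * z.2 : ℝ)) : ℂ)
    (((1 / 50000 * z.1 : ℝ) : ℂ) + ((24999 / 25000 : ℝ) : ℂ) * I)) z := by
  have h1 : HasFDerivAt (fun z : E => z.1 * z.2) (z.1 • ContinuousLinearMap.snd ℝ ℝ ℝ +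
      z.2 • ContinuousLinearMap.fst ℝ ℝ ℝ) z :=
    (hasFDerivAt_fst (𝕜 := ℝ) (E := ℝ) (F := ℝ) (p := z)).mul
      (hasFDerivAt_snd (𝕜 := ℝ) (E := ℝ) (F := ℝ) (p := z))
  have h2 := Complex.ofRealCLM.hasFDerivAt.comp z (h1.const_mul (1 / 50000 : ℝ))
  have h3 := ((LL ((24999 / 25000 : ℝ) : ℂ) (((24999 / 25000 : ℝ) : ℂ) * I)).hasFDerivAt
    (x := z)).add h2
  refine h3.congr_fderiv ?_
  ext
  · simp [LL]
  · simp [LL]
    ring

lemma f0_smooth : ContDiff ℝ ∞ f0 := by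
  unfold f0
  exact (LL _ _).contDiff.add (Complex.ofRealCLM.contDiff.comp
    (contDiff_const.mul (contDiff_fst.mul contDiff_snd)))

/-- the closed unit square -/
def KK : Set E := Icc 0 1 ×ˢ Icc 0 1

lemma KK_compact : IsCompact KK := isCompact_Icc.prod isCompact_Icc

lemma f0_u (z : E) : fderiv ℝ f0 z (1, 0) = ((24999 / 25000 + 1 / 50000 * z.2 : ℝ) : ℂ) := by
  rw [(f0_deriv z).fderiv, LL_apply]
  simp

lemma f0_v (z : E) : fderiv ℝ f0 z (0, 1) =
    ((1 / 50000 * z.1 : ℝ) : ℂ) + ((24999 / 25000 : ℝ) : ℂ) * I := by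
  rw [(f0_deriv z).fderiv, LL_apply]
  simp

lemma f0_P : P KK (1 / 100) f0 := by
  refine ⟨⟨univ, isOpen_univ, subset_univ _, f0_smooth.contDiffOn⟩, ?_⟩
  rintro z ⟨⟨h1, h2⟩, ⟨h3, h4⟩⟩
  rw [f0_u, f0_v]
  have e1 : ‖((24999 / 25000 + 1 / 50000 * z.2 : ℝ) : ℂ)‖ ^ 2 =
      (24999 / 25000 + 1 / 50000 * z.2) ^ 2 := by
    rw [Complex.norm_real, Real.norm_eq_abs, sq_abs]
  have e2 : ‖((1 / 50000 * z.1 : ℝ) : ℂ) + ((24999 / 25000 : ℝ) : ℂ) * I‖ ^ 2 =
      (1 / 50000 * z.1) ^ 2 + (24999 / 25000) ^ 2 := by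
    rw [← Complex.normSq_eq_norm_sq, Complex.normSq_add_mul_I]
  rw [e1, e2]
  constructor <;> constructor <;> nlinarith

/-! ### statement -/

/-- the partial derivative with respect to the first variable `u` -/
noncomputable def pu (x : ℝ × ℝ → ℝ) (z : ℝ × ℝ) : ℝ := fderiv ℝ x z (1, 0)

/-- the partial derivative with respect to the second variable `v` -/
noncomputable def pv (x : ℝ × ℝ → ℝ) (z : ℝ × ℝ) : ℝ := fderiv ℝ x z (0, 1)

/-- The metric `du^2 + 2 sin om du dv + dv^2` is locally Euclidean on `D`: every point of `D` has an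
open neighbourhood `U` in `D` and a `C^1` map `(x, y)` on `U` with `dx^2 + dy^2` equal to it. -/
def LocallyEuclidean (D : Set (ℝ × ℝ)) (om : ℝ × ℝ → ℝ) : Prop :=
  ∀ p ∈ D, ∃ U : Set (ℝ × ℝ), IsOpen U ∧ p ∈ U ∧ U ⊆ D ∧ ∃ x y : ℝ × ℝ → ℝ,
    ContDiffOn ℝ 1 x U ∧ ContDiffOn ℝ 1 y U ∧ ∀ z ∈ U,
      pu x z ^ 2 + pu y z ^ 2 = 1 ∧ pv x z ^ 2 + pv y z ^ 2 = 1 ∧
      pu x z * pv x z + pu y z * pv y z = Real.sin (om z)

/-- On some open rectangle containing `p` the function is `g(u) + h(v)` with `g`, `h` continuous. -/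
def AdditiveNear (om : ℝ × ℝ → ℝ) (p : ℝ × ℝ) : Prop :=
  ∃ I J : Set ℝ, IsOpen I ∧ IsOpen J ∧ p.1 ∈ I ∧ p.2 ∈ J ∧ ∃ g h : ℝ → ℝ,
    ContinuousOn g I ∧ ContinuousOn h J ∧ ∀ u ∈ I, ∀ v ∈ J, om (u, v) = g u + h v

/-- a continuous function near a point extends to the line -/
lemma extend {I : Set ℝ} (hI : IsOpen I) {x : ℝ} (hx : x ∈ I) {g : ℝ → ℝ}
    (hg : ContinuousOn g I) : ∃ g' : ℝ → ℝ, Continuous g' ∧ ∀ᶠ u in 𝓝 x, u ∈ I ∧ g' u = g u := by
  obtain ⟨r, hr, hrI⟩ := Metric.isOpen_iff.1 hI x hx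
  have hsub : Icc (x - r / 2) (x + r / 2) ⊆ I := by
    intro y hy
    apply hrI
    rw [Metric.mem_ball, Real.dist_eq, abs_lt]
    constructor <;> linarith [hy.1, hy.2]
  refine ⟨fun t => g (max (x - r / 2) (min t (x + r / 2))), ?_, ?_⟩
  · apply hg.comp_continuous (by fun_prop)
    intro t
    apply hsub
    exact ⟨le_max_left _ _, max_le (by linarith) (min_le_right _ _)⟩
  · have h1 : Ioo (x - r / 2) (x + r / 2) ∈ 𝓝 x := Ioo_mem_nhds (by linarith) (by linarith)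
    filter_upwards [h1] with u hu
    refine ⟨hsub ⟨hu.1.le, hu.2.le⟩, ?_⟩
    rw [min_eq_left hu.2.le, max_eq_right hu.1.le]

lemma const_of_locally_const {φ : ℝ → ℂ} (h : ∀ v ∈ Ioo (0 : ℝ) 1, ∀ᶠ w in 𝓝 v, φ w = φ v)
    {v w : ℝ} (hv : v ∈ Ioo (0 : ℝ) 1) (hw : w ∈ Ioo (0 : ℝ) 1) : φ v = φ w := by
  have h1 : ∀ x ∈ Ioo (0 : ℝ) 1, HasDerivWithinAt φ 0 (Ioo 0 1) x := by
    intro x hx
    have h2 : HasDerivAt φ 0 x := by
      have h3 : HasDerivAt (fun _ : ℝ => φ x) 0 x := hasDerivAt_const _ _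
      exact h3.congr_of_eventuallyEq (h x hx)
    exact h2.hasDerivWithinAt
  have h2 := (convex_Ioo (0 : ℝ) 1).norm_image_sub_le_of_norm_hasDerivWithin_le
    (f := φ) (f' := fun _ => 0) (C := 0) h1 (fun _ _ => by simp) hw hv
  rw [zero_mul] at h2
  exact sub_eq_zero.1 (norm_le_zero_iff.1 h2)

/-- **A flat Chebyshev metric with continuous, not locally additive angle.** -/
theorem result : ∃ (D : Set (ℝ × ℝ)) (om : ℝ × ℝ → ℝ), IsOpen D ∧ ContinuousOn om D ∧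
    (∀ z ∈ D, |Real.sin (om z)| < 1) ∧ LocallyEuclidean D om ∧ ∃ p ∈ D, ¬ AdditiveNear om p := by
  obtain ⟨f, A, B, hfAB, hAc, hBc, hder⟩ := limit_exists KK_compact (s := 1 / 100)
    (ε := 1 / 10000000) (by norm_num) (by norm_num) f0_P (by norm_num)
  have hint : interior KK = Ioo 0 1 ×ˢ Ioo 0 1 := by
    rw [KK, interior_prod_eq, interior_Icc]
  set D : Set (ℝ × ℝ) := interior KK with hD
  have hDo : IsOpen D := isOpen_interior
  have hDK : D ⊆ KK := interior_subset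
  -- the quotient of the partial derivatives
  set Q : E → ℂ := fun z => B z * (starRingEnd ℂ) (A z) with hQ
  have hQc : ContinuousOn Q D := (hBc.mono hDK).mul
    (Complex.continuous_conj.comp_continuousOn (hAc.mono hDK))
  have hQn : ∀ z ∈ D, ‖Q z‖ = 1 := by
    intro z hz
    obtain ⟨-, -, -, h4, h5⟩ := hfAB z (hDK hz)
    simp only [hQ]
    rw [norm_mul, RCLike.norm_conj, h4, h5, one_mul]
  have hQim : ∀ z ∈ D, 0 < (Q z).im := by
    intro z hz
    obtain ⟨-, h2, h3, h4, h5⟩ := hfAB z (hDK hz)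
    obtain ⟨⟨u1, u2⟩, ⟨v1, v2⟩⟩ := hDK hz
    rw [f0_u] at h2
    rw [f0_v] at h3
    have hA1 : ‖A z - 1‖ ≤ 11 / 100 := by
      have e1 : A z - 1 = -(((24999 / 25000 + 1 / 50000 * z.2 : ℝ) : ℂ) - A z) +
          ((24999 / 25000 + 1 / 50000 * z.2 - 1 : ℝ) : ℂ) := by push_cast; ring
      rw [e1]
      refine (norm_add_le _ _).trans ?_
      rw [norm_neg, Complex.norm_real, Real.norm_eq_abs]
      have : |24999 / 25000 + 1 / 50000 * z.2 - 1| ≤ 1 / 1000 := by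
        rw [abs_le]; constructor <;> linarith
      linarith
    have hB1 : ‖B z - I‖ ≤ 11 / 100 := by
      have e1 : B z - I = -((((1 / 50000 * z.1 : ℝ) : ℂ) + ((24999 / 25000 : ℝ) : ℂ) * I) - B z) +
          (((1 / 50000 * z.1 : ℝ) : ℂ) + ((24999 / 25000 - 1 : ℝ) : ℂ) * I) := by push_cast; ring
      rw [e1]
      refine (norm_add_le _ _).trans ?_
      rw [norm_neg]
      have h6 : ‖((1 / 50000 * z.1 : ℝ) : ℂ) + ((24999 / 25000 - 1 : ℝ) : ℂ) * I‖ ≤ 1 / 1000 := by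
        refine (norm_add_le _ _).trans ?_
        rw [norm_mul, Complex.norm_I, mul_one, Complex.norm_real, Complex.norm_real,
          Real.norm_eq_abs, Real.norm_eq_abs]
        have h7 : |1 / 50000 * z.1| ≤ 1 / 50000 := by rw [abs_le]; constructor <;> linarith
        have h8 : |(24999 / 25000 - 1 : ℝ)| ≤ 1 / 25000 := by rw [abs_le]; constructor <;> norm_num
        linarith
      linarith
    have e2 : Q z = I + (B z - I) * (starRingEnd ℂ) (A z) + I * (starRingEnd ℂ) (A z - 1) := by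
      simp only [hQ, map_sub, map_one]; ring
    have e3 : |(Q z - I).im| ≤ 22 / 100 := by
      refine (Complex.abs_im_le_norm _).trans ?_
      have e4 : Q z - I = (B z - I) * (starRingEnd ℂ) (A z) + I * (starRingEnd ℂ) (A z - 1) := by
        rw [e2]; ring
      rw [e4]
      refine (norm_add_le _ _).trans ?_
      rw [norm_mul, norm_mul, RCLike.norm_conj, RCLike.norm_conj, h4, Complex.norm_I]
      linarith
    rw [Complex.sub_im, Complex.I_im] at e3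
    have := abs_le.1 e3
    linarith
  have hQre : ∀ z ∈ D, |(Q z).re| < 1 := by
    intro z hz
    have h1 := hQn z hz
    have h2 := hQim z hz
    have h3 : (Q z).re ^ 2 + (Q z).im ^ 2 = 1 := by
      have := Complex.sq_norm (Q z)
      rw [h1, Complex.normSq_apply] at this
      nlinarith
    rw [← sq_lt_one_iff_abs_lt_one]
    nlinarith
  set om : ℝ × ℝ → ℝ := fun z => Real.arcsin (Q z).re with hom
  have homc : ContinuousOn om D :=
    Real.continuous_arcsin.comp_continuousOn (Complex.continuous_re.comp_continuousOn hQc)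
  have hsin : ∀ z ∈ D, Real.sin (om z) = (Q z).re := by
    intro z hz
    have := abs_lt.1 (hQre z hz)
    exact Real.sin_arcsin this.1.le this.2.le
  have hcos : ∀ z ∈ D, Real.cos (om z) = (Q z).im := by
    intro z hz
    have h2 := hQim z hz
    simp only [hom]
    rw [Real.cos_arcsin]
    have h3 : 1 - (Q z).re ^ 2 = (Q z).im ^ 2 := by
      have := Complex.sq_norm (Q z)
      rw [hQn z hz, Complex.normSq_apply] at this
      nlinarith
    rw [h3, Real.sqrt_sq h2.le]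
  have hBQ : ∀ z ∈ D, B z = I * Complex.exp (-(I * ((om z : ℝ) : ℂ))) * A z := by
    intro z hz
    rw [I_exp, hsin z hz, hcos z hz]
    have h1 : ((Q z).re : ℂ) + I * ((Q z).im : ℂ) = Q z := by
      rw [mul_comm]; exact Complex.re_add_im _
    rw [h1]
    simp only [hQ]
    have h4 : ‖A z‖ = 1 := (hfAB z (hDK hz)).2.2.2.1
    rw [mul_assoc, mul_comm ((starRingEnd ℂ) (A z)), Complex.mul_conj, Complex.normSq_eq_norm_sq, h4]
    simp
  refine ⟨D, om, hDo, homc, ?_, ?_, ?_⟩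
  · intro z hz
    rw [hsin z hz]
    exact hQre z hz
  · intro p hp
    have hre : ∀ z ∈ D, HasFDerivAt (fun z => (f z).re) (Complex.reCLM.comp (LL (A z) (B z))) z :=
      fun z hz => Complex.reCLM.hasFDerivAt.comp z (hder z hz)
    have him : ∀ z ∈ D, HasFDerivAt (fun z => (f z).im) (Complex.imCLM.comp (LL (A z) (B z))) z :=
      fun z hz => Complex.imCLM.hasFDerivAt.comp z (hder z hz)
    have hLc : ContinuousOn (fun z => LL (A z) (B z)) D := by
      intro z0 hz0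
      rw [ContinuousWithinAt, tendsto_iff_norm_sub_tendsto_zero]
      have h1 : Tendsto (fun z : E => ‖A z - A z0‖ + ‖B z - B z0‖) (𝓝[D] z0) (𝓝 0) := by
        have h2 : ContinuousOn (fun z : E => ‖A z - A z0‖ + ‖B z - B z0‖) D :=
          ((hAc.mono hDK).sub continuousOn_const).norm.add
            ((hBc.mono hDK).sub continuousOn_const).norm
        simpa [ContinuousWithinAt] using h2 z0 hz0
      exact squeeze_zero (fun _ => norm_nonneg _) (fun z => LL_sub _ _ _ _) h1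
    have hC1 : ∀ (x : E → ℝ) (T : ℂ →L[ℝ] ℝ),
        (∀ z ∈ D, HasFDerivAt x (T.comp (LL (A z) (B z))) z) → ContDiffOn ℝ 1 x D := by
      intro x T hx
      have h1 : ContinuousOn (fun z => T.comp (LL (A z) (B z))) D :=
        (continuousOn_const.clm_comp hLc)
      have key : ContDiffOn ℝ (0 + 1) x D := by
        rw [contDiffOn_succ_iff_fderiv_of_isOpen hDo]
        refine ⟨fun z hz => (hx z hz).differentiableAt.differentiableWithinAt, by simp, ?_⟩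
        rw [contDiffOn_zero]
        exact h1.congr fun z hz => (hx z hz).fderiv
      simpa using key
    refine ⟨D, hDo, hp, Subset.rfl, fun z => (f z).re, fun z => (f z).im, hC1 _ _ hre,
      hC1 _ _ him, fun z hz => ?_⟩
    obtain ⟨-, -, -, h4, h5⟩ := hfAB z (hDK hz)
    have p1 : pu (fun z => (f z).re) z = (A z).re := by
      rw [pu, (hre z hz).fderiv]; simp [LL_apply]
    have p2 : pu (fun z => (f z).im) z = (A z).im := by
      rw [pu, (him z hz).fderiv]; simp [LL_apply]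
    have p3 : pv (fun z => (f z).re) z = (B z).re := by
      rw [pv, (hre z hz).fderiv]; simp [LL_apply]
    have p4 : pv (fun z => (f z).im) z = (B z).im := by
      rw [pv, (him z hz).fderiv]; simp [LL_apply]
    rw [p1, p2, p3, p4, hsin z hz]
    have q1 := Complex.sq_norm (A z)
    have q2 := Complex.sq_norm (B z)
    rw [h4, Complex.normSq_apply] at q1
    rw [h5, Complex.normSq_apply] at q2
    refine ⟨by nlinarith, by nlinarith, ?_⟩
    simp only [hQ, Complex.mul_re, Complex.conj_re, Complex.conj_im]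
    ring
  · by_contra hcon
    push Not at hcon
    -- `A` is locally independent of the second variable
    have hloc : ∀ p ∈ D, ∃ (γ : ℝ → ℂ), ∀ᶠ z in 𝓝 p, A z = γ z.1 := by
      intro p hp
      obtain ⟨I', J, hI, hJ, hpI, hpJ, g, h, hg, hh, hgh⟩ := hcon p hp
      obtain ⟨g', hg', hge⟩ := extend hI hpI hg
      obtain ⟨h', hh', hhe⟩ := extend hJ hpJ hh
      have hDn : ∀ᶠ z in 𝓝 p, z ∈ D := hDo.mem_nhds hp
      have h1 : ∀ᶠ z : E in 𝓝 p, om z = g' z.1 + h' z.2 := by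
        have a1 := (continuous_fst (X := ℝ) (Y := ℝ)).continuousAt (x := p) |>.eventually hge
        have a2 := (continuous_snd (X := ℝ) (Y := ℝ)).continuousAt (x := p) |>.eventually hhe
        filter_upwards [a1, a2] with z b1 b2
        rw [b1.2, b2.2]
        exact hgh z.1 b1.1 z.2 b2.1
      obtain ⟨m, hm⟩ := rigid (f := f) (A := A) (B := B) (p := p) hg' hh'
        (hDn.mono fun z hz => hder z hz) (hDn.mono fun z hz => (hfAB z (hDK hz)).2.2.2.1)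
        (by
          filter_upwards [hDn, h1] with z hz h2
          rw [← h2]
          exact hBQ z hz)
        (by
          rw [← h1.self_of_nhds, hcos p hp]
          exact (hQim p hp).ne')
      exact ⟨fun u => Complex.exp (I * (g' u : ℂ)) * m, hm⟩
    have hAconst : ∀ u ∈ Ioo (0 : ℝ) 1, A (u, 3 / 4) = A (u, 1 / 4) := by
      intro u hu
      refine const_of_locally_const (φ := fun v => A (u, v)) (fun v hv => ?_) (by norm_num)
        (by norm_num)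
      obtain ⟨γ, hγ⟩ := hloc (u, v) (by rw [hint]; exact ⟨hu, hv⟩)
      have h1 : Tendsto (fun w : ℝ => ((u, w) : E)) (𝓝 v) (𝓝 (u, v)) :=
        (continuous_const.prodMk continuous_id).tendsto v
      have h2 := h1.eventually hγ
      filter_upwards [h2] with w hw
      rw [hw, hγ.self_of_nhds]
    have hlin : ∀ c ∈ Ioo (0 : ℝ) 1, ∀ u ∈ Ioo (0 : ℝ) 1,
        HasDerivAt (fun t : ℝ => f (t, c)) (A (u, c)) u := by
      intro c hc u hu
      have h1 := hder (u, c) (by rw [hint]; exact ⟨hu, hc⟩)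
      have h2 : HasDerivAt (fun t : ℝ => ((t, c) : E)) ((1, 0) : E) u :=
        (hasDerivAt_id u).prodMk (hasDerivAt_const u c)
      have h3 : HasDerivAt (fun t : ℝ => f (t, c)) (LL (A (u, c)) (B (u, c)) (1, 0)) u :=
        h1.comp_hasDerivAt u h2
      simpa [LL_apply] using h3
    have hψ : ∀ u ∈ Ioo (0 : ℝ) 1, HasDerivAt (fun t : ℝ => f (t, 3 / 4) - f (t, 1 / 4)) 0 u := by
      intro u hu
      have h1 := (hlin (3 / 4) (by norm_num) u hu).sub (hlin (1 / 4) (by norm_num) u hu)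
      rwa [hAconst u hu, sub_self] at h1
    have h2 := (convex_Ioo (0 : ℝ) 1).norm_image_sub_le_of_norm_hasDerivWithin_le
      (f := fun t : ℝ => f (t, 3 / 4) - f (t, 1 / 4)) (f' := fun _ => 0) (C := 0)
      (fun x hx => (hψ x hx).hasDerivWithinAt) (fun _ _ => by simp)
      (x := 1 / 4) (y := 3 / 4) (by norm_num) (by norm_num)
    rw [zero_mul] at h2
    have h3 := norm_le_zero_iff.1 h2
    have hk : ∀ a ∈ Icc (0 : ℝ) 1, ∀ b ∈ Icc (0 : ℝ) 1, ‖f0 (a, b) - f (a, b)‖ ≤ 3 / 10000000 := by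
      intro a ha b hb
      refine ((hfAB (a, b) ⟨ha, hb⟩).1).trans ?_
      norm_num
    have k1 := hk (3 / 4) (by norm_num) (3 / 4) (by norm_num)
    have k2 := hk (3 / 4) (by norm_num) (1 / 4) (by norm_num)
    have k3 := hk (1 / 4) (by norm_num) (3 / 4) (by norm_num)
    have k4 := hk (1 / 4) (by norm_num) (1 / 4) (by norm_num)
    have e1 : f0 (3 / 4, 3 / 4) - f0 (3 / 4, 1 / 4) - (f0 (1 / 4, 3 / 4) - f0 (1 / 4, 1 / 4)) =
        ((1 / 200000 : ℝ) : ℂ) := by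
      simp only [f0, LL_apply]
      push_cast
      ring
    have e2 : ((1 / 200000 : ℝ) : ℂ) = (f0 (3 / 4, 3 / 4) - f (3 / 4, 3 / 4)) -
        (f0 (3 / 4, 1 / 4) - f (3 / 4, 1 / 4)) - ((f0 (1 / 4, 3 / 4) - f (1 / 4, 3 / 4)) -
        (f0 (1 / 4, 1 / 4) - f (1 / 4, 1 / 4))) := by
      rw [← e1]
      linear_combination h3
    have e3 : ‖((1 / 200000 : ℝ) : ℂ)‖ ≤ 12 / 10000000 := by
      rw [e2]
      refine (norm_sub_le _ _).trans ?_
      have q1 := norm_sub_le (f0 (3 / 4, 3 / 4) - f (3 / 4, 3 / 4))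
        (f0 (3 / 4, 1 / 4) - f (3 / 4, 1 / 4))
      have q2 := norm_sub_le (f0 (1 / 4, 3 / 4) - f (1 / 4, 3 / 4))
        (f0 (1 / 4, 1 / 4) - f (1 / 4, 1 / 4))
      linarith
    rw [Complex.norm_real, Real.norm_eq_abs, abs_of_pos (by norm_num)] at e3
    norm_num at e3
end Pool.Agent.Results.MP_65e1c6_gt.NonAdditiveAngle
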